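import Pool.Agent.V5helper62.RM.Pairs
import Pool.Agent.TH796.Fin.Fin8

/-!
# Numbers of low block complexity in several independent bases
-/

set_option autoImplicit false

namespace Pool.Agent.V5helper62.TB

open Filter Pool.Agent.V5helper62.RM Pool.Agent.N743.SS Pool.Agent.R356 Pool.Agent.TH456.TM

lemma relM_mono {ι : Type} {S T : Set ℝ} {y : ι → ℝ} (h : RelM S y) (hST : S ⊆ T) : RelM T y := by
  intro D
  obtain ⟨κ, c, hκ, hc, h⟩ := h D
  exact ⟨κ, c, hκ, hc, fun H hH => h H fun t ht => hH t (hST ht)⟩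

/-- a transcendence measure -/
theorem measT_of_relM {z : ℝ} (h : RelM ∅ (fun _ : Unit => z)) : MeasT ((z : ℝ) : ℂ) := by
  have h1 : JointR 0 z := jointR_of_relM (relM_mono h (Set.empty_subset _))
  intro D
  obtain ⟨κ, C, hκ, hC, hj⟩ := h1 (D + 1)
  refine ⟨κ, C, hκ.le, hC, fun P hP hPD H hH hPH => ?_⟩
  have h2 := hj Polynomial.X P Polynomial.X_ne_zero hP (by rw [Polynomial.natDegree_X]; omega) (by omega) H
    (fun k => by
      rw [Polynomial.coeff_X]
      split_ifs
      · simpa using hH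
      · simp only [Int.cast_zero, abs_zero]; linarith) hPH
  rw [Polynomial.aeval_X, abs_zero, max_eq_right (abs_nonneg _)] at h2
  have hH0 : 0 < H := by linarith
  rw [← abs_aeval]
  calc C = H ^ κ * (C * H ^ (-κ)) := by
        rw [mul_comm C, ← mul_assoc, ← Real.rpow_add hH0, add_neg_cancel, Real.rpow_zero, one_mul]
    _ ≤ H ^ κ * |Polynomial.aeval z P| := mul_le_mul_of_nonneg_left h2 (by positivity)

/-- the differences of the members of a family have transcendence measures -/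
theorem measT_diff {k : ℕ} (hk : 1 ≤ k) (o o' : Option ℚ) (ho : ∀ x, o = some x → 0 < x)
    (ho' : ∀ x, o' = some x → 0 < x) (hne : o ≠ o') : MeasT (((Ph (k, o) - Ph (k, o') : ℝ)) : ℂ) := by
  have h := relM_diff (fun _ => o') {(k, o)} (by
      intro p hp
      rw [Finset.mem_singleton] at hp
      rw [hp]
      exact ⟨hk, hne, ho, ho'⟩)
  have h2 := h.comp (fun _ : Unit => some ⟨(k, o), Finset.mem_singleton_self _⟩) (fun _ _ _ => rfl)
  exact measT_of_relM h2

/-- the field of low complexity -/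
noncomputable def low (blocks : ℕ → ℝ → ℕ → ℕ) (S A : Set ℕ) : Subfield ℝ :=
  Subfield.closure {x | ∃ b ∈ A, ∃ C : ℝ, ∀ n ∈ S, (blocks b x n : ℝ) ≤ C * n}

/-- at most as many bad sets of bases as numbers -/
theorem bad_le {I : Type*} {K : I → Subfield ℝ} {T : Finset ℝ}
    (h : ∀ z ∈ T, ∀ i j, i ≠ j → Transcendental (K i) z ∨ Transcendental (K j) z) :
    {i | ∃ z ∈ T, IsAlgebraic (K i) z}.encard ≤ (T.card : ℕ∞) := by
  classical
  have hex : ∀ i, ∃ z : ℝ, i ∈ {i | ∃ z ∈ T, IsAlgebraic (K i) z} → z ∈ T ∧ IsAlgebraic (K i) z := by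
    intro i
    by_cases hi : i ∈ {i | ∃ z ∈ T, IsAlgebraic (K i) z}
    · obtain ⟨z, hz, hz'⟩ := hi
      exact ⟨z, fun _ => ⟨hz, hz'⟩⟩
    · exact ⟨0, fun h => absurd h hi⟩
  choose f hf using hex
  have h1 := Set.encard_le_encard_of_injOn (s := {i | ∃ z ∈ T, IsAlgebraic (K i) z}) (t := (T : Set ℝ)) (f := f)
    (fun i hi => (hf i hi).1) (by
      intro i hi j hj hij
      by_contra hne
      have h2 := hf i hi
      have h3 := hf j hj
      rcases h (f i) h2.1 i j hne with h4 | h4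
      · exact h4 h2.2
      · rw [hij] at h4
        exact h4 h3.2)
  rwa [Set.encard_coe_eq_coe_finsetCard] at h1

/-- both numbers algebraic -/
theorem trans_of_linked {K : Subfield ℝ} {z u v : ℝ} (hz : Transcendental K z)
    (h : IsAlgebraic (IntermediateField.adjoin K ({u, v} : Set ℝ)) z) : Transcendental K u ∨ Transcendental K v := by
  by_contra hcon
  unfold Transcendental at hcon
  push Not at hcon
  obtain ⟨h1, h2⟩ := hcon
  apply hz
  haveI : Algebra.IsAlgebraic K (IntermediateField.adjoin K ({u, v} : Set ℝ)) :=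
    IntermediateField.isAlgebraic_adjoin (by
      intro x hx
      rcases hx with rfl | hx
      · exact h1.isIntegral
      · rw [Set.mem_singleton_iff] at hx
        rw [hx]
        exact h2.isIntegral)
  exact h.restrictScalars K

/-- a pair of elements of the field -/
theorem alg_of_linked {K : Subfield ℝ} {z u v : ℝ} (hu : u ∈ K) (hv : v ∈ K)
    (h : IsAlgebraic (IntermediateField.adjoin ℚ ({u, v} : Set ℝ)) z) : IsAlgebraic K z := by
  have h1 : (IntermediateField.adjoin ℚ ({u, v} : Set ℝ)).toSubfield ≤ K := by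
    show Subfield.closure (Set.range (algebraMap ℚ ℝ) ∪ {u, v}) ≤ K
    rw [Subfield.closure_le]
    rintro y (⟨q, rfl⟩ | hy | hy)
    · exact (SubfieldClass.ratCast_mem _ q)
    · rw [hy]; exact hu
    · rw [Set.mem_singleton_iff] at hy
      rw [hy]; exact hv
  exact Pool.Agent.TH796.AL.Alg.alg_mono h1 h

/-- the digits version, abstractly -/
theorem digits {I : Type*} [Fintype I] (blocks : ℕ → ℝ → ℕ → ℕ) (b : I → ℕ)
    (L : Finset (ℝ × ℝ × ℝ)) (hL : ∀ l ∈ L, IsAlgebraic (IntermediateField.adjoin ℚ ({l.2.1, l.2.2} : Set ℝ)) l.1)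
    (hbad : ∀ S : Set ℕ, S.Infinite → ∀ z ∈ L.image Prod.fst, ∀ i j, i ≠ j →
      Transcendental (low blocks S {b i}) z ∨ Transcendental (low blocks S {b j}) z)
    (hcard : (L.image Prod.fst).card < Fintype.card I) (C : ℝ) :
    ∀ᶠ n : ℕ in atTop, ∃ i, ∀ l ∈ L, C * n < max (blocks (b i) l.2.1 n : ℝ) (blocks (b i) l.2.2 n) := by
  classical
  by_contra hcon
  rw [not_eventually] at hcon
  have hinf : {n : ℕ | ¬ ∃ i, ∀ l ∈ L, C * n < max (blocks (b i) l.2.1 n : ℝ) (blocks (b i) l.2.2 n)}.Infinite :=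
    Nat.frequently_atTop_iff_infinite.1 hcon
  obtain ⟨N, hN⟩ : ∃ N : (I → L) → Set ℕ, N = fun f =>
      {n : ℕ | ∀ i, (blocks (b i) (f i).1.2.1 n : ℝ) ≤ C * n ∧ (blocks (b i) (f i).1.2.2 n : ℝ) ≤ C * n} := ⟨_, rfl⟩
  have hsub : {n : ℕ | ¬ ∃ i, ∀ l ∈ L, C * n < max (blocks (b i) l.2.1 n : ℝ) (blocks (b i) l.2.2 n)} ⊆
      ⋃ f, N f := by
    intro n hn
    rw [Set.mem_setOf_eq] at hn
    push Not at hn
    choose g hg hg' using hn
    rw [Set.mem_iUnion]
    refine ⟨fun i => ⟨g i, hg i⟩, ?_⟩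
    rw [hN]
    intro i
    have := hg' i
    exact ⟨(le_max_left _ _).trans this, (le_max_right _ _).trans this⟩
  obtain ⟨f, hf⟩ : ∃ f, (N f).Infinite := by
    by_contra hno
    push Not at hno
    exact hinf ((Set.finite_iUnion fun f => hno f).subset hsub)
  have hall : ∀ i, IsAlgebraic (low blocks (N f) {b i}) (f i).1.1 := by
    intro i
    refine alg_of_linked ?_ ?_ (hL (f i).1 (f i).2)
    · exact Subfield.subset_closure ⟨b i, rfl, C, fun n hn => by rw [hN] at hn; exact (hn i).1⟩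
    · exact Subfield.subset_closure ⟨b i, rfl, C, fun n hn => by rw [hN] at hn; exact (hn i).2⟩
  have h1 := bad_le (K := fun i => low blocks (N f) {b i}) (T := L.image Prod.fst) (hbad (N f) hf)
  have h2 : {i | ∃ z ∈ L.image Prod.fst, IsAlgebraic (low blocks (N f) {b i}) z} = Set.univ := by
    ext i
    simp only [Set.mem_setOf_eq, Set.mem_univ, iff_true]
    exact ⟨(f i).1.1, Finset.mem_image_of_mem _ (f i).2, hall i⟩
  rw [h2, Set.encard_univ, ENat.card_eq_coe_fintype_card] at h1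
  have h3 : Fintype.card I ≤ (L.image Prod.fst).card := by exact_mod_cast h1
  omega

end Pool.Agent.V5helper62.TB
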